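import Mathlib
import Pool.Agent.R439.QBlock
import Pool.Agent.R439.Phi5

set_option autoImplicit false

namespace Pool.Agent.Results.MP_dac99f_nt.BlockCongruence

open Finset Polynomial Pool.Agent.R439

/-- The sum `S_{m,n}(q)` of the problem. -/
noncomputable def S (m n : ℕ) : K :=
  ∑ k ∈ range (m * n), (-1) ^ k * qint (4 * (k : ℤ) + 1) * q ^ (k ^ 2) *
    (poch q (q ^ 2) k ^ 3 / poch (q ^ 2) (q ^ 2) k ^ 3)

/-- The rational number `c_m`. -/
def c (m : ℕ) : ℚ :=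
  ∑ k ∈ range m, (-1) ^ k * (4 * (k : ℚ) + 1) * (rf (1 / 2) k ^ 3 / (k.factorial : ℚ) ^ 3)

/-- The right-hand side `(-1)^((n-1)/2) q^((n-1)^2/4) [n] c_m`. -/
noncomputable def R (m n : ℕ) : K :=
  (-1) ^ ((n - 1) / 2) * q ^ ((n - 1) ^ 2 / 4) * qint n * (c m : K)

section
variable {n M : ℕ} [NeZero n]

/-- the term of `S` -/
noncomputable def f (k : ℕ) : K := (-1) ^ k * qint (4 * (k : ℤ) + 1) * q ^ (k ^ 2) *
    (poch q (q ^ 2) k ^ 3 / poch (q ^ 2) (q ^ 2) k ^ 3)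

/-- numerator terms of a block -/
noncomputable def tt (n : ℕ) (j : ℤ) (i : ℕ) : K :=
  (-1) ^ i * (1 - q ^ (4 * (i : ℤ) + 1 + n * (4 * j))) * q ^ ((i : ℤ) ^ 2 + n * (2 * j * i)) *
    (g1 n 1 i (2 * j) * g1 n 1 i (2 * j) * g1 n 1 i (2 * j) *
      ((g2 n 1 i (2 * j))⁻¹ * (g2 n 1 i (2 * j))⁻¹ * (g2 n 1 i (2 * j))⁻¹))

/-- the exactly summable terms -/
noncomputable def ss (n : ℕ) (j : ℤ) (i : ℕ) : K :=
  (-1) ^ i * (1 - q ^ (4 * (i : ℤ) + 1 + n * (4 * j))) * q ^ ((i : ℤ) ^ 2 + n * (2 * j * i)) *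
    (g1 n 1 i (4 * j) * g1 n 1 i (-1) * g1 n 1 i (2 * j + 1) *
      ((g2 n 1 i 0)⁻¹ * (g2 n 1 i (4 * j + 1))⁻¹ * (g2 n 1 i (2 * j - 1))⁻¹))

theorem g2_inv_aff (hn : n = 2 * M + 1) {i : ℕ} (hi : i < n) :
    Aff n (fun t => (g2 n 1 i t)⁻¹) :=
  (gp_aff (pow_mem' _) _ _).inv fun t => g2_U hn (Nat.coprime_one_right n) hi t

theorem tt_ss (hn : n = 2 * M + 1) (j : ℤ) {i : ℕ} (hi : i < n) :
    EQ n 2 (tt n j i) (ss n j i) := by
  unfold tt ss
  refine (EQ.refl ?_).mul (EQ.mul ?_ ?_)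
  · exact mul_mem (mul_mem (pow_mem (neg_mem (one_mem _)) _)
      (sub_mem (one_mem _) (zpow_mem _))) (zpow_mem _)
  · exact (gp_aff (n := n) (pow_mem' _) _ i).mul_three _ _ _ _ _ _ (by ring)
  · exact (g2_inv_aff hn hi).mul_three _ _ _ _ _ _ (by ring)

/-- exact evaluation -/
theorem ss_sum (hn : n = 2 * M + 1) (j : ℕ) :
    ∑ i ∈ range (M + 1), ss n j i =
      g1 n 1 M (4 * j) * (1 - q ^ ((n : ℤ) * (4 * j + 1))) / g2 n 1 M (2 * j - 1) := by
  have hb0 : (q ^ 2 : K) ≠ 0 := pow_ne_zero _ q_ne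
  have hb : ∀ i : ℕ, 0 < i → (q ^ 2 : K) ^ i ≠ 1 := qB_ne one_pos
  set a : K := q ^ ((1 : ℤ) + n * (4 * j)) with ha
  set cc : K := q ^ ((1 : ℤ) + n * (2 * j + 1)) with hcc
  have hc : cc ≠ 0 := zpow_ne_zero _ q_ne
  have hodd : (n : ℤ) = 2 * M + 1 := by rw [hn]; push_cast; ring
  have ha1 : ∀ i : ℕ, a * (q ^ 2) ^ i ≠ 1 := by
    intro i
    have e : a * (q ^ 2) ^ i = q ^ ((1 : ℤ) + n * (4 * j) + 2 * i) := by
      rw [ha, ← pow_mul, ← zpow_natCast q (2 * i), ← zpow_add₀ q_ne]; push_cast; rfl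
    rw [e]
    apply q_zpow_ne_one
    positivity
  have hac0 : a * q ^ 2 / cc = q ^ ((2 : ℤ) + n * (2 * j - 1)) := by
    rw [ha, hcc, ← zpow_natCast q 2, ← zpow_add₀ q_ne, ← zpow_sub₀ q_ne]
    congr 1; push_cast; ring
  have hac : ∀ i : ℕ, a * q ^ 2 / cc * (q ^ 2) ^ i ≠ 1 := by
    intro i
    rw [hac0, ← pow_mul, ← zpow_natCast q (2 * i), ← zpow_add₀ q_ne]
    apply q_zpow_ne_one
    intro h
    have h2 : ((2 : ℤ) + n * (2 * j - 1) + ((2 * i : ℕ) : ℤ)) % 2 = 0 := by rw [h]; rfl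
    rw [hodd] at h2
    have e : (2 : ℤ) + (2 * M + 1) * (2 * j - 1) + ((2 * i : ℕ) : ℤ) =
        2 * (1 + M * (2 * j - 1) + j + i - 1) + 1 := by push_cast; ring
    rw [e] at h2
    omega
  have hsum := phi5lim hb0 hb hc ha1 hac M (M + 1) (Nat.lt_succ_self M)
  have hP : poch a (q ^ 2) (M + 1) = g1 n 1 M (4 * j) * (1 - q ^ ((n : ℤ) * (4 * j + 1))) := by
    rw [poch_succ, g1, gp]
    have e1 : q ^ (((1 : ℕ) : ℤ) + (n : ℤ) * (4 * j)) = a := by rw [ha]; push_cast; rfl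
    have e2 : a * (q ^ 2) ^ M = q ^ ((n : ℤ) * (4 * j + 1)) := by
      rw [ha, ← pow_mul, ← zpow_natCast q (2 * M), ← zpow_add₀ q_ne]
      congr 1; rw [hodd]; push_cast; ring
    rw [e1, e2]
  have hQ : poch (a * q ^ 2 / cc) (q ^ 2) M = g2 n 1 M (2 * j - 1) := by
    rw [hac0, g2, gp]; push_cast; rfl
  have hPne : poch a (q ^ 2) (M + 1) ≠ 0 := poch_ne fun i _ => ha1 i
  have hQne : poch (a * q ^ 2 / cc) (q ^ 2) M ≠ 0 := poch_ne fun i _ => hac i
  rw [← hP, ← hQ]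
  have hterm : ∀ i ∈ range (M + 1), ss n j i = T5 (q ^ 2) a cc M i *
      (poch a (q ^ 2) (M + 1) / poch (a * q ^ 2 / cc) (q ^ 2) M) := by
    intro i _
    rw [ss, T5, uu, tc]
    have t1 : g1 n 1 i (4 * j) = poch a (q ^ 2) i := by
      rw [g1, gp, ha]; push_cast; rfl
    have t2 : g1 n 1 i (-1) = poch ((q ^ 2) ^ (-(M : ℤ))) (q ^ 2) i := by
      rw [g1, gp]
      congr 1
      rw [← zpow_natCast q 2, ← zpow_mul]; congr 1; rw [hodd]; push_cast; ring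
    have t3 : g1 n 1 i (2 * j + 1) = poch cc (q ^ 2) i := by
      rw [g1, gp, hcc]; push_cast; rfl
    have t4 : g2 n 1 i 0 = poch (q ^ 2) (q ^ 2) i := by
      rw [g2, gp, mul_zero, add_zero, zpow_natCast, mul_one]
    have t5 : g2 n 1 i (4 * j + 1) = poch (a * (q ^ 2) ^ (M + 1)) (q ^ 2) i := by
      rw [g2, gp]
      congr 1
      rw [ha, ← pow_mul, ← zpow_natCast q (2 * (M + 1)), ← zpow_add₀ q_ne]
      congr 1; rw [hodd]; push_cast; ring
    have t6 : g2 n 1 i (2 * j - 1) = poch (a * q ^ 2 / cc) (q ^ 2) i := by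
      rw [hac0, g2, gp]; push_cast; rfl
    rw [t1, t2, t3, t4, t5, t6]
    have e1 : q ^ (4 * (i : ℤ) + 1 + n * (4 * j)) = a * ((q ^ 2) ^ i) ^ 2 := by
      rw [ha, ← pow_mul, ← pow_mul, ← zpow_natCast q (2 * (i * 2)), ← zpow_add₀ q_ne]
      congr 1; push_cast; ring
    have hprod : ∏ l ∈ range i, ((q ^ 2) ^ l : K) = q ^ ((i : ℤ) ^ 2 - i) := by
      have h1 : ∏ l ∈ range i, ((q ^ 2) ^ l : K) = q ^ (∑ l ∈ range i, 2 * l) := by
        rw [← prod_pow_eq_pow_sum]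
        exact prod_congr rfl fun l _ => (pow_mul q 2 l).symm
      rw [h1, ← zpow_natCast]
      congr 1
      rw [← mul_sum]
      have := Finset.sum_range_id_mul_two i
      have h2 : ((∑ l ∈ range i, l : ℕ) : ℤ) * 2 = (i : ℤ) ^ 2 - i := by
        rcases Nat.eq_zero_or_pos i with h | h
        · subst h; simp
        · have h3 : ((∑ l ∈ range i, l : ℕ) : ℤ) * 2 = (i : ℤ) * ((i - 1 : ℕ) : ℤ) := by
            exact_mod_cast this
          have h4 : ((i - 1 : ℕ) : ℤ) = i - 1 := by omega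
          rw [h3, h4]; ring
      push_cast at h2 ⊢
      linarith
    have e2 : q ^ ((i : ℤ) ^ 2 + n * (2 * j * i)) =
        (∏ l ∈ range i, ((q ^ 2) ^ l : K)) * (a / cc) ^ i * (((q ^ 2) ^ (M + 1)) ^ i) := by
      rw [hprod, ha, hcc, ← zpow_sub₀ q_ne, ← zpow_natCast (q ^ (_ : ℤ)) i, ← zpow_mul,
        ← pow_mul, ← pow_mul, ← zpow_natCast q (2 * ((M + 1) * i)), ← zpow_add₀ q_ne,
        ← zpow_add₀ q_ne]
      congr 1; rw [hodd]; push_cast; ring
    rw [e1, e2]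
    have hQi : poch (a * q ^ 2 / cc) (q ^ 2) i ≠ 0 := poch_ne fun i _ => hac i
    field_simp
  rw [sum_congr rfl hterm, ← sum_mul, hsum, one_mul]

theorem one_sub_q_U (hn1 : 1 < n) : U n (1 - q) := by
  have := U_one_sub (n := n) (e := 1) (fun h => by
    have := Int.le_of_dvd one_pos h
    omega)
  rwa [zpow_one] at this

/-- prefactor of block `j` -/
noncomputable def pf (n j : ℕ) : K := (-1) ^ j * q ^ ((j * n) ^ 2) * RR n 1 j ^ 3 / (1 - q)

theorem f_block (hn : n = 2 * M + 1) (j i : ℕ) : f (j * n + i) = pf n j * tt n j i := by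
  have hr := ratio_block (n := n) (r := 1) j i
  rw [pow_one, mul_one, Nat.cast_one, mul_one] at hr
  rw [f, tt, pf, ← div_pow, hr, qint]
  have e1 : ((-1 : K)) ^ (j * n + i) = (-1) ^ j * (-1) ^ i := by
    rw [pow_add, hn]
    congr 1
    rw [mul_add, mul_one, pow_add, ← mul_assoc, mul_comm j 2, mul_assoc, pow_mul]
    simp
  have e2 : q ^ (4 * ((j * n + i : ℕ) : ℤ) + 1) = q ^ (4 * (i : ℤ) + 1 + n * (4 * j)) := by
    congr 1; push_cast; ring
  have e3 : (q ^ ((j * n + i) ^ 2) : K) = q ^ ((j * n) ^ 2) * q ^ ((i : ℤ) ^ 2 + n * (2 * j * i)) := by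
    rw [← zpow_natCast, ← zpow_natCast q ((j * n) ^ 2), ← zpow_add₀ q_ne]
    congr 1; push_cast; ring
  rw [e1, e2, e3]
  ring

theorem pf_eq (hn : n = 2 * M + 1) (hn1 : 1 < n) (j : ℕ) :
    EQ n 1 (pf n j) ((-1) ^ j * ((ch j : K)) ^ 3 / (1 - q)) := by
  have h1 := one_sub_q_U hn1
  have h2 : EQ n 1 (q ^ ((j * n) ^ 2)) 1 := by
    have := Q_eq (n := n) ((j : ℤ) ^ 2 * n)
    have e : q ^ ((n : ℤ) * ((j : ℤ) ^ 2 * n)) = q ^ ((j * n) ^ 2) := by
      rw [← zpow_natCast]; congr 1; push_cast; ring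
    rwa [e] at this
  have h3 := (RR_eq hn one_pos (Nat.coprime_one_right n) j).pow 3
  have h4 : EQ n 1 ((-1 : K) ^ j) ((-1) ^ j) := EQ.refl (pow_mem (neg_mem (one_mem _)) _)
  have h5 := ((h4.mul h2).mul h3).div one_pos (EQ.refl h1.2.1) h1
  rw [mul_one] at h5
  exact h5

theorem block_sum (hn : n = 2 * M + 1) (hn1 : 1 < n) (j : ℕ) :
    EQ n 2 (∑ i ∈ range n, f (j * n + i))
      ((-1) ^ M * q ^ (M ^ 2) * (w n / (1 - q)) * ((-1) ^ j * (4 * j + 1) * (ch j : K) ^ 3)) := by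
  have h1 := one_sub_q_U hn1
  have hr1 : Nat.Coprime n 1 := Nat.coprime_one_right n
  have s1 : ∑ i ∈ range n, f (j * n + i) = pf n j * ∑ i ∈ range n, tt n j i := by
    rw [mul_sum]; exact sum_congr rfl fun i _ => f_block hn j i
  have s2 : EQ n 2 (∑ i ∈ range n, tt n j i) (∑ i ∈ range (M + 1), ss n j i) := by
    have : ∑ i ∈ range n, tt n j i = ∑ i ∈ range (M + 1), tt n j i +
        ∑ i ∈ range M, tt n j (M + 1 + i) := by
      rw [← sum_range_add]; congr 1; rw [hn]; congr 1; ring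
    rw [this]
    have a1 : EQ n 2 (∑ i ∈ range (M + 1), tt n j i) (∑ i ∈ range (M + 1), ss n j i) :=
      EQ.sum fun i hi => tt_ss hn j (by have := mem_range.1 hi; omega)
    have a2 : EQ n 2 (∑ i ∈ range M, tt n j (M + 1 + i)) 0 := by
      apply EQ.of_I
      refine I.sum fun i hi => ?_
      have hi' := mem_range.1 hi
      have hlt : M + 1 + i < n := by omega
      unfold tt
      have b1 := g1_I hn 1 (i := M + 1 + i) (by omega) (2 * j)
      have b2 := g2_U hn hr1 hlt (2 * j)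
      refine I.mulL (mul_mem (mul_mem (pow_mem (neg_mem (one_mem _)) _)
        (sub_mem (one_mem _) (zpow_mem _))) (zpow_mem _)) ?_
      exact ((b1.mul b1).mulR b1.mem).mulR (mul_mem (mul_mem b2.2.2 b2.2.2) b2.2.2)
    have := a1.add a2
    rwa [add_zero] at this
  rw [s1]
  have p1 := pf_eq hn hn1 j
  have s3 : EQ n 2 (pf n j * ∑ i ∈ range n, tt n j i) (pf n j * ∑ i ∈ range (M + 1), ss n j i) :=
    (EQ.refl p1.1).mul s2
  refine s3.trans ?_
  rw [ss_sum hn j]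
  have hM : M < n := by omega
  have u2 := g2_U hn hr1 hM (2 * j - 1)
  have e1 : pf n j * (g1 n 1 M (4 * j) * (1 - q ^ ((n : ℤ) * (4 * j + 1))) / g2 n 1 M (2 * j - 1)) =
      w n * (pf n j * qi n (4 * j + 1) * (g1 n 1 M (4 * j) / g2 n 1 M (2 * j - 1))) := by
    rw [← w_qi]; ring
  have e2 : (-1) ^ M * q ^ (M ^ 2) * (w n / (1 - q)) * ((-1) ^ j * (4 * j + 1) * (ch j : K) ^ 3) =
      w n * ((-1) ^ j * (ch j : K) ^ 3 / (1 - q) * ((4 * j + 1 : ℤ) : K) *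
        ((-1) ^ M * q ^ (M ^ 2))) := by
    push_cast; ring
  rw [e1, e2]
  apply EQ.w_mul
  refine (p1.mul (qi_eq _)).mul ?_
  have h2 := (g12_eq hn 1 (4 * j) (2 * j - 1)).div one_pos (EQ.refl u2.2.1) u2
  rw [mul_div_assoc, div_self u2.1, mul_one, one_mul] at h2
  exact h2

theorem main (hn : n = 2 * M + 1) (hn1 : 1 < n) (m : ℕ) : EQ n 2 (S m n) (R m n) := by
  have h1 : S m n = ∑ j ∈ range m, ∑ i ∈ range n, f (j * n + i) := by
    rw [S, ← sum_blocks]; rfl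
  rw [h1]
  have h2 := EQ.sum (s := range m) fun j _ => block_sum hn hn1 j
  have h3 : ∑ j ∈ range m, ((-1) ^ M * q ^ (M ^ 2) * (w n / (1 - q)) *
      ((-1) ^ j * (4 * j + 1) * (ch j : K) ^ 3)) = R m n := by
    rw [← mul_sum, R, c]
    have e1 : (n - 1) / 2 = M := by omega
    have e2 : (n - 1) ^ 2 / 4 = M ^ 2 := by
      have : n - 1 = 2 * M := by omega
      rw [this, mul_pow]; norm_num
    rw [e1, e2, qint, w, zpow_natCast]
    congr 1
    push_cast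
    refine sum_congr rfl fun j _ => ?_
    rw [ch]
    push_cast
    rw [div_pow]
  rwa [h3] at h2

end

/-- the case `n = 1`, `m = 2` -/
theorem fail : ¬ Cong (cyclotomic 1 ℚ ^ 2) (S 2 1) (R 2 1) := by
  intro h
  have hI : I 1 2 (S 2 1 - R 2 1) := I_of_num two_ne_zero h
  have hq1 : (1 - q : K) ≠ 0 := by simpa using one_sub_pow_ne one_ne_zero
  have hq2 : (1 + q : K) ≠ 0 := by
    intro h0
    have : (1 - q ^ 2 : K) ≠ 0 := one_sub_pow_ne two_ne_zero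
    apply this
    have : (1 - q ^ 2 : K) = (1 - q) * (1 + q) := by ring
    rw [this, h0, mul_zero]
  have hq3 : (1 - q ^ 2 : K) ≠ 0 := one_sub_pow_ne two_ne_zero
  have e : (S 2 1 - R 2 1) * (8 * (1 + q) ^ 3) =
      w 1 * (5 + 12 * q + 19 * q ^ 2 + 16 * q ^ 3 + 8 * q ^ 4) := by
    have hc : c 2 = 3 / 8 := by
      norm_num [c, sum_range_succ, rf, Nat.factorial]
    have hS : S 2 1 = 1 - (1 - q ^ 5) / (1 - q) * q / (1 + q) ^ 3 := by
      have e5 : q ^ (4 * ((1 : ℕ) : ℤ) + 1) = q ^ 5 := by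
        rw [← zpow_natCast q 5]; norm_num
      rw [S, mul_one, sum_range_succ, sum_range_one]
      simp only [poch, range_zero, prod_empty, range_one, prod_singleton, pow_zero, mul_one,
        qint, e5]
      have e6 : (q ^ (4 * ((0 : ℕ) : ℤ) + 1) : K) = q := by norm_num
      rw [e6]
      have e7 : (1 - q ^ 2 : K) = (1 - q) * (1 + q) := by ring
      rw [e7]
      field_simp
      ring
    have hR : R 2 1 = ((3 / 8 : ℚ) : K) := by
      rw [R, hc, qint]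
      simp
      exact hq1
    rw [hS, hR, w]
    push_cast
    field_simp
    ring
  have h8 : (8 * (1 + q) ^ 3 : K) ∈ O 1 := by
    have := mul_mem (natCast_mem (O 1) 8) (pow_mem (add_mem (one_mem (O 1)) q_mem) 3)
    exact_mod_cast this
  have h1 : I 1 2 (w 1 * (5 + 12 * q + 19 * q ^ 2 + 16 * q ^ 3 + 8 * q ^ 4)) := by
    rw [← e]; exact hI.mulR h8
  have h2 : I 1 1 (5 + 12 * q + 19 * q ^ 2 + 16 * q ^ 3 + 8 * q ^ 4 : K) := I_w_mul_iff.1 h1
  have h3 : I 1 1 (60 : K) := by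
    have e3 : (60 : K) = (5 + 12 * q + 19 * q ^ 2 + 16 * q ^ 3 + 8 * q ^ 4) +
        w 1 * (55 + 43 * q + 24 * q ^ 2 + 8 * q ^ 3) := by
      rw [w]; ring
    rw [e3]
    refine h2.add (I_w.mulR ?_)
    have := add_mem (add_mem (add_mem (natCast_mem (O 1) 55)
      (mul_mem (natCast_mem (O 1) 43) q_mem)) (mul_mem (natCast_mem (O 1) 24) (pow_mem' 2)))
      (mul_mem (natCast_mem (O 1) 8) (pow_mem' 3))
    exact_mod_cast this
  have h60 : U 1 (60 : K) := by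
    have := U_rat (n := 1) (c := 60) (by norm_num)
    exact_mod_cast this
  exact h60.not_I one_pos h3

/-- **Answer to Q1.** The congruence holds for all `m ≥ 1` and all odd `n > 1`; for `n = 1` it
fails for `m = 2`. -/
theorem result :
    (∀ m n : ℕ, 1 ≤ m → 1 < n → Odd n → Cong (cyclotomic n ℚ ^ 2) (S m n) (R m n)) ∧
      ¬ Cong (cyclotomic 1 ℚ ^ 2) (S 2 1) (R 2 1) := by
  refine ⟨fun m n _ hn1 hodd => ?_, fail⟩
  obtain ⟨M, hM⟩ := hodd
  have : NeZero n := ⟨by omega⟩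
  exact num_of_I (main hM hn1 m).2.2

end Pool.Agent.Results.MP_dac99f_nt.BlockCongruence
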